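import Pool.Agent.W2helper31.GP.Stm5

/-! PIECE TRIG3 of project GP5. -/

set_option autoImplicit false

namespace Pool.Agent.W2helper99.GP5

open MeasureTheory ProbabilityTheory Pool.Agent.W2helper31.GP
open scoped Interval

theorem countable_cos (a : ℝ) : {θ : ℝ | Real.cos (θ - a) = 0}.Countable := by
  have h : {θ : ℝ | Real.cos (θ - a) = 0} ⊆
      Set.range fun k : ℤ => (2 * (k : ℝ) + 1) * Real.pi / 2 + a := by
    intro θ hθ
    obtain ⟨k, hk⟩ := Real.cos_eq_zero_iff.1 hθ
    exact ⟨k, by simp only; linarith⟩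
  exact (Set.countable_range _).mono h

theorem ae_good (a : Fin 3 → ℝ) : ∀ᵐ θ : ℝ, ∀ i, Real.cos (θ - a i) ≠ 0 := by
  rw [ae_all_iff]
  intro i
  have := (countable_cos (a i)).ae_notMem volume
  filter_upwards [this] with θ hθ
  exact hθ

theorem int_cos_sq (n : ℕ) (hn : 0 < n) (g : ℝ) :
    ∫ θ in (-Real.pi)..Real.pi, Real.cos (2 * n * θ - g) ^ 2 = Real.pi := by
  have h1 : ∀ θ : ℝ, Real.cos (2 * n * θ - g) ^ 2 =
      1 / 2 + 1 / 2 * Real.cos (4 * n * θ - 2 * g) := by
    intro θ
    rw [show 4 * (n : ℝ) * θ - 2 * g = 2 * (2 * n * θ - g) by ring, Real.cos_two_mul]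
    ring
  simp only [h1]
  have hn' : (4 * (n : ℝ)) ≠ 0 := by positivity
  rw [intervalIntegral.integral_add (by apply Continuous.intervalIntegrable; fun_prop) (by
    apply Continuous.intervalIntegrable; fun_prop), intervalIntegral.integral_const_mul]
  have h2 : ∫ θ in (-Real.pi)..Real.pi, Real.cos (4 * n * θ - 2 * g) = 0 := by
    rw [intervalIntegral.integral_comp_mul_sub (fun x => Real.cos x) hn', integral_cos,
      show 4 * (n : ℝ) * Real.pi - 2 * g = (4 * n * (-Real.pi) - 2 * g) + ((4 * n : ℕ) : ℝ) * (2 * Real.pi) by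
        push_cast; ring, Real.sin_add_nat_mul_two_pi, sub_self, smul_zero]
  rw [h2]
  simp
  ring

theorem int_cos_mul (g g' : ℝ) :
    ∫ θ in (-Real.pi)..Real.pi, Real.cos (2 * θ - g) * Real.cos (6 * θ - g') = 0 := by
  have h1 : ∀ θ : ℝ, Real.cos (2 * θ - g) * Real.cos (6 * θ - g') =
      1 / 2 * Real.cos (8 * θ - (g + g')) + 1 / 2 * Real.cos (4 * θ - (g' - g)) := by
    intro θ
    have e1 : Real.cos (8 * θ - (g + g')) = Real.cos ((2 * θ - g) + (6 * θ - g')) := by
      congr 1; ring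
    have e2 : Real.cos (4 * θ - (g' - g)) = Real.cos ((6 * θ - g') - (2 * θ - g)) := by
      congr 1; ring
    rw [e1, e2, Real.cos_add (2 * θ - g) (6 * θ - g'), Real.cos_sub (6 * θ - g') (2 * θ - g)]
    ring
  simp only [h1]
  rw [intervalIntegral.integral_add (by apply Continuous.intervalIntegrable; fun_prop) (by
    apply Continuous.intervalIntegrable; fun_prop), intervalIntegral.integral_const_mul,
    intervalIntegral.integral_const_mul]
  have h2 : ∀ (n : ℕ) (c : ℝ), 0 < n → ∫ θ in (-Real.pi)..Real.pi, Real.cos (n * θ - c) = 0 := by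
    intro n c hn
    have hn' : (n : ℝ) ≠ 0 := by positivity
    rw [intervalIntegral.integral_comp_mul_sub (fun x => Real.cos x) hn', integral_cos,
      show (n : ℝ) * Real.pi - c = (n * (-Real.pi) - c) + (n : ℝ) * (2 * Real.pi) by ring,
      Real.sin_add_nat_mul_two_pi, sub_self, smul_zero]
  have h3 := h2 8 (g + g') (by norm_num)
  have h4 := h2 4 (g' - g) (by norm_num)
  push_cast at h3 h4
  rw [h3, h4]
  simp

theorem p_trig3 (hFC0 : P_FC0) (hFC : P_FC) (hALG : P_ALG3) (hTAN : P_TAN) : P_TRIG3 := by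
  intro a p hp hp1
  obtain ⟨g1, g3, s, hs, hs1, hS0, hS3⟩ := hALG a
  obtain ⟨A1, A3, hA1, hA3, hA, hfin⟩ : ∃ A1 A3 : ℝ, 0 ≤ A1 ∧ 0 ≤ A3 ∧ A1 + A3 ≤ 1 / 2 ∧
      91 / 1000 ≤ A1 * s / 2 + A3 * (∑ i, Real.cos (6 * a i - g3)) / 6 - (A1 ^ 2 + A3 ^ 2) / 3 := by
    set S3 := ∑ i, Real.cos (6 * a i - g3)
    rcases le_total s (3 / 5) with h | h
    · refine ⟨1 / 5, 3 / 10, by norm_num, by norm_num, by norm_num, ?_⟩
      nlinarith [mul_nonneg hs hs, mul_nonneg (mul_nonneg hs hs) (sub_nonneg.2 h),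
        mul_nonneg hs (sub_nonneg.2 h)]
    · refine ⟨7 / 20, 3 / 20, by norm_num, by norm_num, by norm_num, ?_⟩
      rcases le_total s (4 / 5) with h' | h'
      · nlinarith [mul_nonneg (sub_nonneg.2 h) (sub_nonneg.2 h'), mul_nonneg hs (mul_nonneg
          (sub_nonneg.2 h) (sub_nonneg.2 h'))]
      · nlinarith
  set f : ℝ → ℝ := fun θ => A1 * Real.cos (2 * θ - g1) + A3 * Real.cos (6 * θ - g3) with hf
  have hfc : Continuous f := by fun_prop
  have hfb : ∀ θ, |f θ| ≤ 1 / 2 := by
    intro θ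
    have c1 := Real.abs_cos_le_one (2 * θ - g1)
    have c2 := Real.abs_cos_le_one (6 * θ - g3)
    calc |f θ| ≤ |A1 * Real.cos (2 * θ - g1)| + |A3 * Real.cos (6 * θ - g3)| := abs_add_le _ _
      _ = A1 * |Real.cos (2 * θ - g1)| + A3 * |Real.cos (6 * θ - g3)| := by
        rw [abs_mul, abs_mul, abs_of_nonneg hA1, abs_of_nonneg hA3]
      _ ≤ A1 * 1 + A3 * 1 := by gcongr
      _ ≤ 1 / 2 := by linarith
  set Lg : Fin 3 → ℝ → ℝ := fun i θ => Real.log |2 * Real.cos (θ - a i)| with hLg
  have hLi : ∀ i, IntervalIntegrable (Lg i) volume (-Real.pi) Real.pi := fun i => (hFC0 (a i)).1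
  have hfLi : ∀ i, IntervalIntegrable (fun θ => f θ * Lg i θ) volume (-Real.pi) Real.pi :=
    fun i => (hLi i).continuousOn_mul hfc.continuousOn
  have hL0 : ∀ i, ∫ θ in (-Real.pi)..Real.pi, Lg i θ = 0 := fun i => (hFC0 (a i)).2
  have hc2L : ∀ i, IntervalIntegrable (fun θ => Lg i θ * Real.cos (2 * θ - g1)) volume
      (-Real.pi) Real.pi := fun i => (hLi i).mul_continuousOn (by fun_prop)
  have hc6L : ∀ i, IntervalIntegrable (fun θ => Lg i θ * Real.cos (6 * θ - g3)) volume
      (-Real.pi) Real.pi := fun i => (hLi i).mul_continuousOn (by fun_prop)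
  have hfL : ∀ i, ∫ θ in (-Real.pi)..Real.pi, f θ * Lg i θ =
      A1 * (Real.pi * Real.cos (2 * a i - g1)) + A3 * (Real.pi / 3 * Real.cos (6 * a i - g3)) := by
    intro i
    rw [← (hFC (a i) g1).1, ← (hFC (a i) g3).2, ← intervalIntegral.integral_const_mul,
      ← intervalIntegral.integral_const_mul, ← intervalIntegral.integral_add
      ((hc2L i).const_mul A1) ((hc6L i).const_mul A3)]
    refine intervalIntegral.integral_congr fun θ _ => ?_
    simp only [hf, hLg]
    ring
  have hf2 : ∫ θ in (-Real.pi)..Real.pi, f θ ^ 2 = Real.pi * (A1 ^ 2 + A3 ^ 2) := by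
    have e : ∀ θ, f θ ^ 2 = A1 ^ 2 * Real.cos (2 * θ - g1) ^ 2 + (A3 ^ 2 * Real.cos (6 * θ - g3) ^ 2 +
        2 * A1 * A3 * (Real.cos (2 * θ - g1) * Real.cos (6 * θ - g3))) := by
      intro θ
      simp only [hf]
      ring
    simp only [e]
    rw [intervalIntegral.integral_add (by apply Continuous.intervalIntegrable; fun_prop)
      (by apply Continuous.intervalIntegrable; fun_prop),
      intervalIntegral.integral_add (by apply Continuous.intervalIntegrable; fun_prop)
      (by apply Continuous.intervalIntegrable; fun_prop),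
      intervalIntegral.integral_const_mul, intervalIntegral.integral_const_mul,
      intervalIntegral.integral_const_mul, int_cos_mul]
    have h1 := int_cos_sq 1 (by norm_num) g1
    have h3 := int_cos_sq 3 (by norm_num) g3
    norm_num at h1 h3
    rw [h1, h3]
    ring
  have hsum : IntervalIntegrable (fun θ => ∑ i, Lg i θ) volume (-Real.pi) Real.pi := by
    have := IntervalIntegrable.sum (μ := volume) (a := -Real.pi) (b := Real.pi) Finset.univ
      (f := Lg) fun i _ => hLi i
    simpa only [Finset.sum_fn] using this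
  have hfsum : IntervalIntegrable (fun θ => ∑ i, f θ * Lg i θ) volume (-Real.pi) Real.pi := by
    have := IntervalIntegrable.sum (μ := volume) (a := -Real.pi) (b := Real.pi) Finset.univ
      (f := fun i θ => f θ * Lg i θ) fun i _ => hfLi i
    simpa only [Finset.sum_fn] using this
  have hf2i : IntervalIntegrable (fun θ => f θ ^ 2) volume (-Real.pi) Real.pi :=
    (hfc.pow 2).intervalIntegrable _ _
  set Gf : ℝ → ℝ := fun θ => (1 + p * ∑ i, Lg i θ) +
    (p ^ 2 * (∑ i, f θ * Lg i θ) - p ^ 2 * (2 / 3) * f θ ^ 2) with hGf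
  have hG : IntervalIntegrable Gf volume (-Real.pi) Real.pi :=
    (intervalIntegrable_const.add (hsum.const_mul p)).add
      ((hfsum.const_mul (p ^ 2)).sub (hf2i.const_mul _))
  have hGint : ∫ θ in (-Real.pi)..Real.pi, Gf θ = 2 * Real.pi +
      p ^ 2 * (A1 * Real.pi * s + A3 * (Real.pi / 3) * (∑ i, Real.cos (6 * a i - g3)) -
        2 / 3 * (Real.pi * (A1 ^ 2 + A3 ^ 2))) := by
    simp only [hGf]
    rw [intervalIntegral.integral_add (intervalIntegrable_const.add (hsum.const_mul p))
      ((hfsum.const_mul (p ^ 2)).sub (hf2i.const_mul _)),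
      intervalIntegral.integral_add intervalIntegrable_const (hsum.const_mul p),
      intervalIntegral.integral_sub (hfsum.const_mul (p ^ 2)) (hf2i.const_mul _),
      intervalIntegral.integral_const_mul, intervalIntegral.integral_const_mul,
      intervalIntegral.integral_const_mul, hf2,
      intervalIntegral.integral_finsetSum (fun i _ => hLi i),
      intervalIntegral.integral_finsetSum (fun i _ => hfLi i)]
    simp only [hL0, hfL, Finset.sum_const_zero, mul_zero, add_zero, Finset.sum_add_distrib,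
      ← Finset.mul_sum, hs1, intervalIntegral.integral_const, smul_eq_mul]
    ring
  have hxc : Continuous fun θ : ℝ => (∏ i, |2 * Real.cos (θ - a i)|) ^ p := by
    refine Continuous.rpow_const ?_ fun _ => Or.inr hp.le
    fun_prop
  have hmono : ∫ θ in (-Real.pi)..Real.pi, Gf θ ≤
      ∫ θ in (-Real.pi)..Real.pi, (∏ i, |2 * Real.cos (θ - a i)|) ^ p := by
    refine intervalIntegral.integral_mono_ae (by linarith [Real.pi_pos]) hG
      (hxc.intervalIntegrable _ _) ?_
    filter_upwards [ae_good a] with θ hθ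
    have hne : ∀ i, |2 * Real.cos (θ - a i)| ≠ 0 := fun i =>
      abs_ne_zero.2 (mul_ne_zero two_ne_zero (hθ i))
    have hx : 0 < ∏ i, |2 * Real.cos (θ - a i)| :=
      Finset.prod_pos fun i _ => lt_of_le_of_ne (abs_nonneg _) (hne i).symm
    have h1 := hTAN p (f θ) _ hp hp1 (hfb θ) hx
    rw [Real.log_prod (fun i _ => hne i)] at h1
    refine le_trans (le_of_eq ?_) h1
    simp only [hGf, hLg, Finset.mul_sum]
    have e1 : ∑ i, f θ * Real.log |2 * Real.cos (θ - a i)| =
        f θ * ∑ i, Real.log |2 * Real.cos (θ - a i)| := by rw [Finset.mul_sum]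
    simp only [← Finset.mul_sum]
    ring
  rw [hGint] at hmono
  have hpi := Real.pi_pos
  have hp2 : 0 < p ^ 2 := by positivity
  have h6 : ∀ I : ℝ, 1 / (2 * Real.pi) * I = I / (2 * Real.pi) := fun I => by ring
  rw [h6, le_div_iff₀ (by positivity)]
  refine le_trans ?_ hmono
  have h5 := mul_le_mul_of_nonneg_left hfin (mul_nonneg hp2.le hpi.le)
  nlinarith [h5]

end Pool.Agent.W2helper99.GP5
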